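import Mathlib
import Pool.Agent.H143R3.BT.Stmts

set_option autoImplicit false
set_option maxHeartbeats 4000000

/-! Project H143-BT, task BT-C: confinement of Brownian motion to an interval. -/

namespace Pool.Agent.H87R3.BT

open MeasureTheory ProbabilityTheory Filter Topology
open scoped ENNReal NNReal
open Pool.Agent.H143R3.BT

universe u

/-! ### Paths -/

/-- paths with `|x| ≤ r` at the chosen times in `[0, h]` -/
def K (h : ℝ≥0) (r : ℝ) : Set (ℝ≥0 → ℝ) := {x | ∀ p : ℕ × ℕ, |x (tq h p)| ≤ r}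

theorem tq_le (s : ℝ≥0) (p : ℕ × ℕ) : tq s p ≤ s := by
  unfold tq
  calc s * min ((p.1 : ℝ≥0) / (p.2 + 1)) 1 ≤ s * 1 := by
        gcongr
        exact min_le_right _ _
    _ = s := mul_one s

theorem measurableSet_K (h : ℝ≥0) (r : ℝ) : MeasurableSet (K h r) := by
  unfold K
  have : {x : ℝ≥0 → ℝ | ∀ p : ℕ × ℕ, |x (tq h p)| ≤ r} =
      ⋂ p : ℕ × ℕ, {x : ℝ≥0 → ℝ | |x (tq h p)| ≤ r} := by
    ext x; simp
  rw [this]
  refine MeasurableSet.iInter fun p => ?_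
  exact measurableSet_le (measurable_pi_apply _).abs measurable_const

theorem dense_tq {x : ℝ≥0 → ℝ} (hx : Continuous x) {s : ℝ≥0} {r : ℝ}
    (h : ∀ p : ℕ × ℕ, |x (tq s p)| ≤ r) : ∀ u ≤ s, |x u| ≤ r := by
  intro u hu
  rcases eq_or_ne s 0 with hs | hs
  · subst hs
    have hu0 : u = 0 := le_antisymm hu (zero_le)
    have h0 := h (0, 0)
    have : tq 0 (0, 0) = 0 := by simp [tq]
    rw [this] at h0
    rw [hu0]; exact h0
  · have hspos : (0 : ℝ) < s := by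
      have : 0 < s := pos_iff_ne_zero.mpr hs
      exact_mod_cast this
    have hquot0 : (0 : ℝ) ≤ (u : ℝ) / s := by positivity
    have hquot1 : (u : ℝ) / s ≤ 1 := by
      rw [div_le_one hspos]; exact_mod_cast hu
    have ht : Tendsto (fun n : ℕ => ((⌊((u : ℝ) / s) * ((n : ℝ) + 1)⌋₊ : ℝ) / ((n : ℝ) + 1)))
        atTop (𝓝 ((u : ℝ) / s)) := by
      have h1 := tendsto_nat_floor_mul_div_atTop (R := ℝ) hquot0
      have h2 : Tendsto (fun n : ℕ => ((n : ℝ) + 1)) atTop atTop :=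
        tendsto_atTop_add_const_right _ _ tendsto_natCast_atTop_atTop
      exact h1.comp h2
    have ht2 : Tendsto (fun n : ℕ => (s : ℝ) *
        min (((⌊((u : ℝ) / s) * ((n : ℝ) + 1)⌋₊ : ℝ) / ((n : ℝ) + 1))) 1) atTop (𝓝 (u : ℝ)) := by
      have h1 := (ht.min (tendsto_const_nhds (x := (1 : ℝ)))).const_mul (s : ℝ)
      rw [min_eq_left hquot1] at h1
      have h2 : (s : ℝ) * ((u : ℝ) / s) = u := by field_simp
      rw [h2] at h1
      exact h1
    have ht3 : Tendsto (fun n : ℕ => tq s (⌊((u : ℝ) / s) * ((n : ℝ) + 1)⌋₊, n)) atTop (𝓝 u) := by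
      rw [← NNReal.tendsto_coe]
      refine ht2.congr fun n => ?_
      simp only [tq]
      push_cast
      rfl
    have ht4 := (hx.tendsto u).comp ht3
    have ht5 : Tendsto (fun n : ℕ => |x (tq s (⌊((u : ℝ) / s) * ((n : ℝ) + 1)⌋₊, n))|) atTop
        (𝓝 |x u|) := ht4.abs
    exact le_of_tendsto ht5 (Eventually.of_forall fun n => h _)

theorem nrm_le_of_K {x : ℝ≥0 → ℝ} {s : ℝ≥0} {r : ℝ}
    (h : ∀ p : ℕ × ℕ, |x (tq s p)| ≤ r) : nrm s x ≤ r := by
  unfold nrm sp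
  refine max_le (ciSup_le fun p => (abs_le.1 (h p)).2) (ciSup_le fun p => ?_)
  have := (abs_le.1 (h p)).1
  linarith

theorem nrm_le_of_le {x : ℝ≥0 → ℝ} {s : ℝ≥0} {r : ℝ}
    (h : ∀ u ≤ s, |x u| ≤ r) : nrm s x ≤ r := nrm_le_of_K fun p => h _ (tq_le s p)

theorem le_of_nrm_le {x : ℝ≥0 → ℝ} (hx : Continuous x) {s : ℝ≥0} {r : ℝ}
    (h : nrm s x ≤ r) : ∀ u ≤ s, |x u| ≤ r := by
  refine dense_tq hx fun p => ?_
  have hb : ∀ y : ℝ≥0 → ℝ, Continuous y → BddAbove (Set.range fun p : ℕ × ℕ => y (tq s p)) := by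
    intro y hy
    have h1 : BddAbove (y '' Set.Icc 0 s) := isCompact_Icc.bddAbove_image hy.continuousOn
    refine h1.mono ?_
    rintro _ ⟨p, rfl⟩
    exact ⟨tq s p, ⟨zero_le, tq_le s p⟩, rfl⟩
  have h1 : x (tq s p) ≤ sp s x := le_ciSup (hb x hx) p
  have h2 : -x (tq s p) ≤ sp s (fun u => -x u) := le_ciSup (hb (fun u => -x u) hx.neg) p
  unfold nrm at h
  have h3 := (le_max_left _ _).trans h
  have h4 := (le_max_right _ _).trans h
  rw [abs_le]
  constructor <;> linarith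

/-! ### Uniqueness in law -/

theorem pre {Ω : Type u} [MeasurableSpace Ω] {P : Measure Ω} {X : ℝ≥0 → Ω → ℝ}
    (h : IsBM P X) : IsPreBrownianReal X P := by
  refine HasIndepIncrements.isPreBrownianReal_of_hasLaw (fun t => ?_) h.indep
  refine ⟨(h.meas t).aemeasurable, ?_⟩
  have := h.law 0 t (zero_le)
  rw [tsub_zero] at this
  rw [← this]
  apply Measure.map_congr
  filter_upwards [h.zero] with ω hω
  rw [hω, sub_zero]

theorem law_eq {Ω₁ Ω₂ : Type u} [MeasurableSpace Ω₁] [MeasurableSpace Ω₂] {P₁ : Measure Ω₁}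
    {P₂ : Measure Ω₂} {X₁ : ℝ≥0 → Ω₁ → ℝ} {X₂ : ℝ≥0 → Ω₂ → ℝ}
    (h1 : IsPreBrownianReal X₁ P₁) (h2 : IsPreBrownianReal X₂ P₂) (m1 : ∀ t, Measurable (X₁ t))
    (m2 : ∀ t, Measurable (X₂ t)) {A : Set (ℝ≥0 → ℝ)} (hA : MeasurableSet A) :
    P₁ {ω | (fun t => X₁ t ω) ∈ A} = P₂ {ω | (fun t => X₂ t ω) ∈ A} := by
  have e1 : Measurable (fun ω => fun t => X₁ t ω) := measurable_pi_lambda _ m1
  have e2 : Measurable (fun ω => fun t => X₂ t ω) := measurable_pi_lambda _ m2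
  have p1 := isProjectiveLimit_map (P := P₁) (X := X₁) e1.aemeasurable
  have p2 := isProjectiveLimit_map (P := P₂) (X := X₂) e2.aemeasurable
  have q1 : (fun I : Finset ℝ≥0 => P₁.map (fun ω ↦ I.restrict (X₁ · ω))) =
      fun I => BrownianReal.projectiveFamily I := by
    funext I
    exact (h1.hasLaw I).map_eq
  have q2 : (fun I : Finset ℝ≥0 => P₂.map (fun ω ↦ I.restrict (X₂ · ω))) =
      fun I => BrownianReal.projectiveFamily I := by
    funext I
    exact (h2.hasLaw I).map_eq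
  rw [q1] at p1
  rw [q2] at p2
  have heq := p1.unique p2
  have h3 : P₁.map (fun ω => fun t => X₁ t ω) A = P₂.map (fun ω => fun t => X₂ t ω) A := by
    rw [heq]
  rw [Measure.map_apply e1 hA, Measure.map_apply e2 hA] at h3
  exact h3

/-! ### Small times -/

theorem exists_small {Ω : Type u} [MeasurableSpace Ω] {P : Measure Ω} [IsProbabilityMeasure P]
    {X : ℝ≥0 → Ω → ℝ} (h : IsBM P X) :
    ∃ δ : ℝ≥0, 0 < δ ∧ (2⁻¹ : ℝ≥0∞) ≤ P {ω | (fun t => X t ω) ∈ K δ (1 / 2)} := by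
  have hm : Measurable (fun ω => fun t => X t ω) := measurable_pi_lambda _ h.meas
  have ht : Tendsto (fun m : ℕ => P {ω | (fun t => X t ω) ∈ K (1 / ((m : ℝ≥0) + 1)) (1 / 2)})
      atTop (𝓝 (P Set.univ)) := by
    refine tendsto_measure_of_ae_tendsto_indicator_of_isFiniteMeasure atTop MeasurableSet.univ
      (fun m => hm (measurableSet_K _ _)) ?_
    filter_upwards [h.cont, h.zero] with ω h1 h2
    have h3 : Tendsto (fun t => X t ω) (𝓝 0) (𝓝 0) := by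
      have := h1.tendsto 0
      simp only [h2] at this
      exact this
    have h4 : ∀ᶠ t in 𝓝 (0 : ℝ≥0), |X t ω| < 1 / 2 := by
      have h5 := h3.abs
      rw [abs_zero] at h5
      exact h5.eventually_lt_const (by norm_num)
    obtain ⟨ε, hε, h5⟩ := Metric.eventually_nhds_iff.mp h4
    have h6 : Tendsto (fun n : ℕ => 1 / ((n : ℝ) + 1)) atTop (𝓝 0) :=
      tendsto_one_div_add_atTop_nhds_zero_nat
    filter_upwards [h6.eventually_lt_const hε] with m hm6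
    refine ⟨fun _ => Set.mem_univ _, fun _ p => ?_⟩
    refine (h5 ?_).le
    rw [NNReal.dist_eq]
    have h7 : ((tq (1 / ((m : ℝ≥0) + 1)) p : ℝ≥0) : ℝ) ≤ ((1 / ((m : ℝ≥0) + 1) : ℝ≥0) : ℝ) := by
      exact_mod_cast tq_le _ p
    rw [NNReal.coe_zero, sub_zero, abs_of_nonneg (NNReal.coe_nonneg _)]
    refine h7.trans_lt ?_
    push_cast
    exact hm6
  rw [measure_univ] at ht
  have h2 : (2⁻¹ : ℝ≥0∞) < 1 := by norm_num
  obtain ⟨m, hm2⟩ := (ht.eventually_const_lt h2).exists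
  exact ⟨1 / ((m : ℝ≥0) + 1), by positivity, hm2.le⟩

theorem small_scaled {Ω₀ : Type u} [MeasurableSpace Ω₀] {P₀ : Measure Ω₀} {X₀ : ℝ≥0 → Ω₀ → ℝ}
    (h0 : IsBM P₀ X₀) {δ : ℝ≥0} (hδ : (2⁻¹ : ℝ≥0∞) ≤ P₀ {ω | (fun t => X₀ t ω) ∈ K δ (1 / 2)})
    {Ω : Type u} [MeasurableSpace Ω] {P : Measure Ω} {X : ℝ≥0 → Ω → ℝ}
    (h : IsPreBrownianReal X P) (hm : ∀ t, Measurable (X t)) (R : ℝ≥0) (hR : 0 < R) :
    (2⁻¹ : ℝ≥0∞) ≤ P {ω | (fun t => X t ω) ∈ K (R ^ 2 * δ) ((R : ℝ) / 2)} := by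
  have hc : (R ^ 2 : ℝ≥0) ≠ 0 := by positivity
  have h1 := h.smul hc
  have h2 := law_eq (pre h0) h1 h0.meas (by intro t; exact (hm _).const_mul _)
    (measurableSet_K δ (1 / 2))
  rw [h2] at hδ
  refine hδ.trans (measure_mono ?_)
  intro ω hω p
  have h3 := hω p
  have h4 : tq (R ^ 2 * δ) p = R ^ 2 * tq δ p := by unfold tq; rw [mul_assoc]
  have h5 : √((R ^ 2 : ℝ≥0) : ℝ) = R := by
    push_cast
    exact Real.sqrt_sq R.2
  have hR' : (0 : ℝ) < R := by exact_mod_cast hR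
  simp only [h5] at h3
  rw [abs_mul, abs_inv, abs_of_pos hR', inv_mul_le_iff₀ hR'] at h3
  show |X (tq (R ^ 2 * δ) p) ω| ≤ (R : ℝ) / 2
  rw [h4]
  linarith

theorem half {Ω : Type u} [MeasurableSpace Ω] {P : Measure Ω} {X : ℝ≥0 → Ω → ℝ}
    (h : IsPreBrownianReal X P) (hm : ∀ t, Measurable (X t)) (s : ℝ≥0) (r : ℝ)
    (hK : (2⁻¹ : ℝ≥0∞) ≤ P {ω | (fun t => X t ω) ∈ K s r}) :
    (4⁻¹ : ℝ≥0∞) ≤ P {ω | (fun t => X t ω) ∈ K s r ∩ {x | 0 ≤ x s}} ∧
    (4⁻¹ : ℝ≥0∞) ≤ P {ω | (fun t => X t ω) ∈ K s r ∩ {x | x s ≤ 0}} := by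
  have h1 := h.neg
  have hA : MeasurableSet (K s r ∩ {x : ℝ≥0 → ℝ | 0 ≤ x s}) :=
    (measurableSet_K s r).inter (measurableSet_le measurable_const (measurable_pi_apply s))
  have h2 := law_eq h h1 hm (fun t => (hm t).neg) hA
  have h3 : {ω | (fun t => (-X) t ω) ∈ K s r ∩ {x | 0 ≤ x s}} =
      {ω | (fun t => X t ω) ∈ K s r ∩ {x | x s ≤ 0}} := by
    ext ω
    simp [K]
  rw [h3] at h2
  have h4 : P {ω | (fun t => X t ω) ∈ K s r} ≤
      P {ω | (fun t => X t ω) ∈ K s r ∩ {x | 0 ≤ x s}} +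
      P {ω | (fun t => X t ω) ∈ K s r ∩ {x | x s ≤ 0}} := by
    refine (measure_mono ?_).trans (measure_union_le _ _)
    intro ω hω
    rcases le_total 0 (X s ω) with h | h
    · exact Or.inl ⟨hω, h⟩
    · exact Or.inr ⟨hω, h⟩
  have h5 := hK.trans h4
  rw [h2] at h5 ⊢
  have h6 : ∀ a : ℝ≥0∞, 2⁻¹ ≤ a + a → 4⁻¹ ≤ a := by
    intro a ha
    by_contra hlt
    push Not at hlt
    have h7 : a + a < 4⁻¹ + 4⁻¹ := ENNReal.add_lt_add hlt hlt
    have h8 : (4⁻¹ : ℝ≥0∞) + 4⁻¹ = 2⁻¹ := by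
      rw [← two_mul, show (4 : ℝ≥0∞) = 2 * 2 by norm_num,
        ENNReal.mul_inv (by norm_num) (by norm_num), ← mul_assoc,
        ENNReal.mul_inv_cancel (by norm_num) (by norm_num), one_mul]
    rw [h8] at h7
    exact absurd (ha.trans_lt h7) (lt_irrefl _)
  exact ⟨h6 _ h5, h6 _ h5⟩

/-! ### One step of the confinement -/

/-- confined up to time `s`, in the middle half at time `s` -/
def Gd (s : ℝ≥0) (R : ℝ) : Set (ℝ≥0 → ℝ) := K s R ∩ {x | |x s| ≤ R / 2}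

theorem step {Ω : Type u} [MeasurableSpace Ω] {P : Measure Ω}
    {X : ℝ≥0 → Ω → ℝ} (h : IsPreBrownianReal X P) (hm : ∀ t, Measurable (X t))
    (hc : ∀ᵐ ω ∂P, Continuous fun t => X t ω) (s η : ℝ≥0) (R : ℝ)
    (hK : (2⁻¹ : ℝ≥0∞) ≤ P {ω | (fun t => X (s + t) ω - X s ω) ∈ K η (R / 2)}) :
    4⁻¹ * P {ω | (fun t => X t ω) ∈ Gd s R} ≤ P {ω | (fun t => X t ω) ∈ Gd (s + η) R} := by
  obtain ⟨hp, hn⟩ := half (h.shift s) (fun t => (hm _).sub (hm _)) η (R / 2) hK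
  have hind := h.indepFun_shift s
  let B0 : Set (Set.Iic s → ℝ) := {y | ∀ p : ℕ × ℕ, |y ⟨tq s p, tq_le s p⟩| ≤ R}
  let B1 : Set (Set.Iic s → ℝ) := {y | |y ⟨s, le_refl s⟩| ≤ R / 2}
  let Zp : Set (Set.Iic s → ℝ) := {y | 0 ≤ y ⟨s, le_refl s⟩}
  let Zn : Set (Set.Iic s → ℝ) := {y | y ⟨s, le_refl s⟩ < 0}
  have hB0 : MeasurableSet B0 := by
    have : B0 = ⋂ p : ℕ × ℕ, {y : Set.Iic s → ℝ | |y ⟨tq s p, tq_le s p⟩| ≤ R} := by
      ext y; simp [B0]
    rw [this]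
    refine MeasurableSet.iInter fun p => ?_
    exact measurableSet_le (measurable_pi_apply _).abs measurable_const
  have hB1 : MeasurableSet B1 := measurableSet_le (measurable_pi_apply _).abs measurable_const
  have hZp : MeasurableSet Zp := measurableSet_le measurable_const (measurable_pi_apply _)
  have hZn : MeasurableSet Zn := measurableSet_lt (measurable_pi_apply _) measurable_const
  have hBp : MeasurableSet (B0 ∩ B1 ∩ Zp) := (hB0.inter hB1).inter hZp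
  have hBn : MeasurableSet (B0 ∩ B1 ∩ Zn) := (hB0.inter hB1).inter hZn
  have hSp : MeasurableSet (K η (R / 2) ∩ {x : ℝ≥0 → ℝ | 0 ≤ x η}) :=
    (measurableSet_K _ _).inter (measurableSet_le measurable_const (measurable_pi_apply _))
  have hSn : MeasurableSet (K η (R / 2) ∩ {x : ℝ≥0 → ℝ | x η ≤ 0}) :=
    (measurableSet_K _ _).inter (measurableSet_le (measurable_pi_apply _) measurable_const)
  have e1 := hind.measure_inter_preimage_eq_mul _ _ hSn hBp
  have e2 := hind.measure_inter_preimage_eq_mul _ _ hSp hBn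
  have mshift : Measurable (fun ω => fun t => X (s + t) ω - X s ω) :=
    measurable_pi_lambda _ fun t => (hm _).sub (hm _)
  have mpast : Measurable (fun ω => fun (t : Set.Iic s) => X t ω) :=
    measurable_pi_lambda _ fun t => hm _
  have hcover : P {ω | (fun t => X t ω) ∈ Gd s R} ≤
      P ((fun ω => fun (t : Set.Iic s) => X t ω) ⁻¹' (B0 ∩ B1 ∩ Zp)) +
      P ((fun ω => fun (t : Set.Iic s) => X t ω) ⁻¹' (B0 ∩ B1 ∩ Zn)) := by
    refine (measure_mono ?_).trans (measure_union_le _ _)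
    rintro ω ⟨h1, h2⟩
    rcases le_or_gt 0 (X s ω) with h3 | h3
    · exact Or.inl ⟨⟨fun p => h1 p, h2⟩, h3⟩
    · exact Or.inr ⟨⟨fun p => h1 p, h2⟩, h3⟩
  have hdisj : Disjoint
      (((fun ω => fun t => X (s + t) ω - X s ω) ⁻¹' (K η (R / 2) ∩ {x : ℝ≥0 → ℝ | x η ≤ 0})) ∩
        ((fun ω => fun (t : Set.Iic s) => X t ω) ⁻¹' (B0 ∩ B1 ∩ Zp)))
      (((fun ω => fun t => X (s + t) ω - X s ω) ⁻¹' (K η (R / 2) ∩ {x : ℝ≥0 → ℝ | 0 ≤ x η})) ∩
        ((fun ω => fun (t : Set.Iic s) => X t ω) ⁻¹' (B0 ∩ B1 ∩ Zn))) := by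
    rw [Set.disjoint_left]
    rintro ω ⟨-, ⟨-, h1⟩⟩ ⟨-, ⟨-, h2⟩⟩
    have h1' : 0 ≤ X s ω := h1
    have h2' : X s ω < 0 := h2
    exact absurd h2' (not_lt.mpr h1')
  have hincl : P ((((fun ω => fun t => X (s + t) ω - X s ω) ⁻¹'
        (K η (R / 2) ∩ {x : ℝ≥0 → ℝ | x η ≤ 0})) ∩
        ((fun ω => fun (t : Set.Iic s) => X t ω) ⁻¹' (B0 ∩ B1 ∩ Zp))) ∪
      (((fun ω => fun t => X (s + t) ω - X s ω) ⁻¹' (K η (R / 2) ∩ {x : ℝ≥0 → ℝ | 0 ≤ x η})) ∩
        ((fun ω => fun (t : Set.Iic s) => X t ω) ⁻¹' (B0 ∩ B1 ∩ Zn)))) ≤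
      P {ω | (fun t => X t ω) ∈ Gd (s + η) R} := by
    apply measure_mono_ae
    filter_upwards [hc] with ω hω hmem
    have key : (∀ p : ℕ × ℕ, |X (tq s p) ω| ≤ R) → |X s ω| ≤ R / 2 →
        (∀ p : ℕ × ℕ, |X (s + tq η p) ω - X s ω| ≤ R / 2) →
        (|X (s + η) ω| ≤ R / 2) → (fun t => X t ω) ∈ Gd (s + η) R := by
      intro h1 h2 h3 h4
      have h1' := dense_tq hω h1
      have hω2 : Continuous fun t => X (s + t) ω - X s ω :=
        (hω.comp (continuous_const.add continuous_id)).sub continuous_const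
      have h3' := dense_tq (x := fun t => X (s + t) ω - X s ω) hω2 h3
      refine ⟨fun p => ?_, h4⟩
      have hle := tq_le (s + η) p
      rcases le_total (tq (s + η) p) s with h5 | h5
      · exact h1' _ h5
      · obtain ⟨v, hv⟩ := exists_add_of_le h5
        show |X (tq (s + η) p) ω| ≤ R
        rw [hv] at hle ⊢
        have hvη : v ≤ η := le_of_add_le_add_left hle
        have h6 := h3' v hvη
        have h7 : |X (s + v) ω| ≤ |X (s + v) ω - X s ω| + |X s ω| := by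
          have := abs_add_le (X (s + v) ω - X s ω) (X s ω)
          simpa using this
        have h6' : |X (s + v) ω - X s ω| ≤ R / 2 := h6
        linarith
    rcases hmem with ⟨⟨h1, h2⟩, ⟨⟨h3, h4⟩, h5⟩⟩ | ⟨⟨h1, h2⟩, ⟨⟨h3, h4⟩, h5⟩⟩
    · have h2' : X (s + η) ω - X s ω ≤ 0 := h2
      have h4' : |X s ω| ≤ R / 2 := h4
      have h5' : 0 ≤ X s ω := h5
      have h6 : |X (s + η) ω - X s ω| ≤ R / 2 := by
        have hω2 : Continuous fun t => X (s + t) ω - X s ω :=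
          (hω.comp (continuous_const.add continuous_id)).sub continuous_const
        exact dense_tq (x := fun t => X (s + t) ω - X s ω) hω2 h1 η le_rfl
      refine key (fun p => h3 p) h4' (fun p => h1 p) ?_
      rw [abs_le] at h4' h6 ⊢
      constructor <;> linarith
    · have h2' : 0 ≤ X (s + η) ω - X s ω := h2
      have h4' : |X s ω| ≤ R / 2 := h4
      have h5' : X s ω < 0 := h5
      have h6 : |X (s + η) ω - X s ω| ≤ R / 2 := by
        have hω2 : Continuous fun t => X (s + t) ω - X s ω :=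
          (hω.comp (continuous_const.add continuous_id)).sub continuous_const
        exact dense_tq (x := fun t => X (s + t) ω - X s ω) hω2 h1 η le_rfl
      refine key (fun p => h3 p) h4' (fun p => h1 p) ?_
      rw [abs_le] at h4' h6 ⊢
      constructor <;> linarith
  rw [measure_union hdisj ((mshift hSp).inter (mpast hBn)), e1, e2] at hincl
  calc 4⁻¹ * P {ω | (fun t => X t ω) ∈ Gd s R} ≤
        4⁻¹ * (P ((fun ω => fun (t : Set.Iic s) => X t ω) ⁻¹' (B0 ∩ B1 ∩ Zp)) +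
          P ((fun ω => fun (t : Set.Iic s) => X t ω) ⁻¹' (B0 ∩ B1 ∩ Zn))) := by
        gcongr
    _ = 4⁻¹ * P ((fun ω => fun (t : Set.Iic s) => X t ω) ⁻¹' (B0 ∩ B1 ∩ Zp)) +
          4⁻¹ * P ((fun ω => fun (t : Set.Iic s) => X t ω) ⁻¹' (B0 ∩ B1 ∩ Zn)) := mul_add _ _ _
    _ ≤ _ := add_le_add (mul_le_mul_left hn _) (mul_le_mul_left hp _)
    _ ≤ _ := hincl

theorem many {Ω : Type u} [MeasurableSpace Ω] {P : Measure Ω} [IsProbabilityMeasure P]
    {X : ℝ≥0 → Ω → ℝ} (h : IsPreBrownianReal X P) (hm : ∀ t, Measurable (X t))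
    (hc : ∀ᵐ ω ∂P, Continuous fun t => X t ω) (η : ℝ≥0) (R : ℝ) (hR : 0 < R)
    (hK : ∀ s : ℝ≥0, (2⁻¹ : ℝ≥0∞) ≤ P {ω | (fun t => X (s + t) ω - X s ω) ∈ K η (R / 2)})
    (n : ℕ) : (4⁻¹ : ℝ≥0∞) ^ n ≤ P {ω | (fun t => X t ω) ∈ Gd (n * η) R} := by
  induction n with
  | zero =>
    have h1 : ∀ᵐ ω ∂P, (fun t => X t ω) ∈ Gd (((0 : ℕ) : ℝ≥0) * η) R := by
      filter_upwards [h.eval_zero_ae_eq_zero] with ω hω
      have e : ((0 : ℕ) : ℝ≥0) * η = 0 := by simp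
      rw [e]
      refine ⟨fun p => ?_, ?_⟩
      · have : tq 0 p = 0 := by simp [tq]
        show |X (tq 0 p) ω| ≤ R
        rw [this, hω, abs_zero]
        exact hR.le
      · show |X 0 ω| ≤ R / 2
        rw [hω, abs_zero]
        positivity
    have h2 : (1 : ℝ≥0∞) ≤ P {ω | (fun t => X t ω) ∈ Gd (((0 : ℕ) : ℝ≥0) * η) R} := by
      rw [← measure_univ (μ := P)]
      apply measure_mono_ae
      filter_upwards [h1] with ω hω _ using hω
    rw [pow_zero]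
    exact h2
  | succ n ih =>
    have h1 := step h hm hc (n * η) η R (hK _)
    have e : ((n + 1 : ℕ) : ℝ≥0) * η = n * η + η := by push_cast; ring
    rw [e, pow_succ']
    exact (mul_le_mul_right ih _).trans h1

/-! ### Upper bound -/

theorem q_lt : (gaussianReal 0 1) (Set.Icc (-2) 2) < 1 := by
  by_contra hge
  push Not at hge
  have h1 : (gaussianReal 0 1) (Set.Icc (-2) 2) = 1 := le_antisymm prob_le_one hge
  have h2 : (gaussianReal 0 1) (Set.Icc (-2) 2)ᶜ = 0 := by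
    rw [prob_compl_eq_zero_iff measurableSet_Icc]
    exact h1
  have h3 : volume (Set.Icc (-2 : ℝ) 2)ᶜ = 0 :=
    gaussianReal_absolutelyContinuous' 0 one_ne_zero h2
  have h4 : volume (Set.Ioi (2 : ℝ)) ≤ volume (Set.Icc (-2 : ℝ) 2)ᶜ := by
    apply measure_mono
    intro x hx hx2
    exact absurd hx2.2 (not_le.mpr hx)
  rw [h3, Real.volume_Ioi] at h4
  exact absurd h4 (by simp)

theorem scale_q (R : ℝ≥0) (hR : 0 < R) :
    (gaussianReal 0 (R ^ 2)) (Set.Icc (-(2 * (R : ℝ))) (2 * R)) =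
      (gaussianReal 0 1) (Set.Icc (-2) 2) := by
  have hR' : (0 : ℝ) < R := by exact_mod_cast hR
  have h1 := gaussianReal_map_const_mul (μ := 0) (v := 1) (R : ℝ)
  have h2 : gaussianReal ((R : ℝ) * 0) (.mk ((R : ℝ) ^ 2) (sq_nonneg _) * 1) =
      gaussianReal 0 (R ^ 2) := by
    rw [mul_zero, mul_one]
    congr 1
  rw [h2] at h1
  rw [← h1, Measure.map_apply (measurable_const_mul _) measurableSet_Icc]
  congr 1
  ext x
  simp only [Set.mem_preimage, Set.mem_Icc]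
  constructor
  · rintro ⟨h3, h4⟩
    constructor <;> nlinarith
  · rintro ⟨h3, h4⟩
    constructor <;> nlinarith

theorem upper : ∃ L : ℝ, 0 < L ∧ ∀ (Ω : Type u) [MeasurableSpace Ω] (P : Measure Ω)
    [IsProbabilityMeasure P] (X : ℝ≥0 → Ω → ℝ), IsBM P X → ∀ (t R : ℝ≥0), 0 < R →
    P {ω | nrm t (fun u => X u ω) ≤ R} ≤
      ENNReal.ofReal (Real.exp (-(⌊(t : ℝ) / (R : ℝ) ^ 2⌋₊ * L))) := by
  set q : ℝ≥0∞ := (gaussianReal 0 1) (Set.Icc (-2) 2) with hq
  have hq1 : q < 1 := q_lt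
  have hqr : q.toReal < 1 := by
    have := (ENNReal.toReal_lt_toReal hq1.ne_top (by simp)).mpr hq1
    simpa using this
  set q' : ℝ := max q.toReal (1 / 2) with hq'
  have hq'1 : q' < 1 := max_lt hqr (by norm_num)
  have hq'0 : 0 < q' := lt_of_lt_of_le (by norm_num) (le_max_right _ _)
  refine ⟨-Real.log q', by have := Real.log_neg hq'0 hq'1; linarith, ?_⟩
  intro Ω _ P _ X h t R hR
  have hR' : (0 : ℝ) < R := by exact_mod_cast hR
  set n := ⌊(t : ℝ) / (R : ℝ) ^ 2⌋₊ with hn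
  have hnt : ∀ i : ℕ, i ≤ n → (i : ℝ≥0) * R ^ 2 ≤ t := by
    intro i hi
    have h1 : (n : ℝ) ≤ (t : ℝ) / (R : ℝ) ^ 2 := Nat.floor_le (by positivity)
    have h2 : (i : ℝ) ≤ (t : ℝ) / (R : ℝ) ^ 2 := le_trans (by exact_mod_cast hi) h1
    rw [le_div_iff₀ (by positivity)] at h2
    exact_mod_cast h2
  have hmono : Monotone (fun i : ℕ => (i : ℝ≥0) * R ^ 2) := by
    intro a b hab
    show (a : ℝ≥0) * R ^ 2 ≤ (b : ℝ≥0) * R ^ 2
    gcongr
  have hind := h.indep.nat hmono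
  have hprod := hind.measure_inter_preimage_eq_mul (Finset.range n)
    (sets := fun _ => Set.Icc (-(2 * (R : ℝ))) (2 * R)) (fun i _ => measurableSet_Icc)
  have hone : ∀ i : ℕ, P ((fun ω => X (((i + 1 : ℕ) : ℝ≥0) * R ^ 2) ω - X ((i : ℝ≥0) * R ^ 2) ω) ⁻¹'
      Set.Icc (-(2 * (R : ℝ))) (2 * R)) = q := by
    intro i
    have h1 := h.law ((i : ℝ≥0) * R ^ 2) (((i + 1 : ℕ) : ℝ≥0) * R ^ 2) (hmono (Nat.le_succ i))
    have h2 : ((i + 1 : ℕ) : ℝ≥0) * R ^ 2 - (i : ℝ≥0) * R ^ 2 = R ^ 2 := by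
      have : ((i + 1 : ℕ) : ℝ≥0) * R ^ 2 = (i : ℝ≥0) * R ^ 2 + R ^ 2 := by push_cast; ring
      rw [this, add_tsub_cancel_left]
    rw [h2] at h1
    have hmeas : Measurable (fun ω => X (((i + 1 : ℕ) : ℝ≥0) * R ^ 2) ω - X ((i : ℝ≥0) * R ^ 2) ω) :=
      (h.meas _).sub (h.meas _)
    rw [← Measure.map_apply hmeas measurableSet_Icc, h1, scale_q R hR]
  have hle : P {ω | nrm t (fun u => X u ω) ≤ R} ≤ P (⋂ i ∈ Finset.range n,
      (fun ω => X (((i + 1 : ℕ) : ℝ≥0) * R ^ 2) ω - X ((i : ℝ≥0) * R ^ 2) ω) ⁻¹'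
        Set.Icc (-(2 * (R : ℝ))) (2 * R)) := by
    apply measure_mono_ae
    filter_upwards [h.cont] with ω hω hmem
    have h1 := le_of_nrm_le hω hmem
    refine Set.mem_iInter₂.mpr fun i hi => ?_
    rw [Finset.mem_range] at hi
    have h2 := h1 _ (hnt (i + 1) hi)
    have h3 := h1 _ (hnt i hi.le)
    rw [abs_le] at h2 h3
    show _ ∧ _
    constructor <;> linarith [h2.1, h2.2, h3.1, h3.2]
  refine hle.trans ?_
  refine hprod.le.trans ?_
  rw [Finset.prod_congr rfl (fun i _ => hone i), Finset.prod_const, Finset.card_range]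
  have h5 : Real.exp (-((n : ℝ) * -Real.log q')) = q' ^ n := by
    rw [show -((n : ℝ) * -Real.log q') = n * Real.log q' by ring, Real.exp_nat_mul,
      Real.exp_log hq'0]
  rw [h5, ENNReal.ofReal_pow hq'0.le]
  have h6 : q ≤ ENNReal.ofReal q' := by
    rw [← ENNReal.ofReal_toReal hq1.ne_top]
    exact ENNReal.ofReal_le_ofReal (le_max_left _ _)
  exact pow_le_pow_left₀ (zero_le) h6 n

theorem taskC : TaskC.{u} := by
  by_cases hex : ∃ (Ω₀ : Type u) (_ : MeasurableSpace Ω₀) (P₀ : Measure Ω₀)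
      (_ : IsProbabilityMeasure P₀) (X₀ : ℝ≥0 → Ω₀ → ℝ), IsBM P₀ X₀
  · obtain ⟨Ω₀, _, P₀, _, X₀, h0⟩ := hex
    obtain ⟨δ, hδ, hsm⟩ := exists_small h0
    obtain ⟨L, hL, hup⟩ := upper.{u}
    have hδ' : (0 : ℝ) < δ := by exact_mod_cast hδ
    have hlog : 0 < Real.log 4 := Real.log_pos (by norm_num)
    refine ⟨Real.log 4 * (1 + 1 / δ) + (1 + 1 / L), by positivity, ?_⟩
    intro Ω _ P _ X h t R hR
    lift R to ℝ≥0 using hR.le
    have hR' : (0 : ℝ≥0) < R := by exact_mod_cast hR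
    constructor
    · set n := ⌈(t : ℝ) / ((R : ℝ) ^ 2 * δ)⌉₊ with hn
      have hK : ∀ s : ℝ≥0, (2⁻¹ : ℝ≥0∞) ≤
          P {ω | (fun t => X (s + t) ω - X s ω) ∈ K (R ^ 2 * δ) ((R : ℝ) / 2)} := fun s =>
        small_scaled h0 hsm ((pre h).shift s) (fun t => (h.meas _).sub (h.meas _)) R hR'
      have h1 := many (pre h) h.meas h.cont (R ^ 2 * δ) R hR hK n
      have hnt : t ≤ n * (R ^ 2 * δ) := by
        have h2 : (t : ℝ) / ((R : ℝ) ^ 2 * δ) ≤ n := Nat.le_ceil _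
        rw [div_le_iff₀ (by positivity)] at h2
        exact_mod_cast h2
      have h2 : P {ω | (fun t => X t ω) ∈ Gd (n * (R ^ 2 * δ)) R} ≤
          P {ω | nrm t (fun u => X u ω) ≤ R} := by
        apply measure_mono_ae
        filter_upwards [h.cont] with ω hω hmem
        exact nrm_le_of_le fun u hu => dense_tq hω hmem.1 u (hu.trans hnt)
      refine le_trans ?_ (h1.trans h2)
      have h3 : (4⁻¹ : ℝ≥0∞) ^ n = ENNReal.ofReal (Real.exp (-(n * Real.log 4))) := by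
        have h4 : Real.exp (-(n * Real.log 4)) = (4⁻¹ : ℝ) ^ n := by
          rw [show -((n : ℝ) * Real.log 4) = n * (-Real.log 4) by ring, Real.exp_nat_mul,
            Real.exp_neg, Real.exp_log (by norm_num)]
        rw [h4, ENNReal.ofReal_pow (by norm_num), ENNReal.ofReal_inv_of_pos (by norm_num)]
        norm_num
      rw [h3]
      apply ENNReal.ofReal_le_ofReal
      apply Real.exp_le_exp.mpr
      have h5 : (n : ℝ) < (t : ℝ) / ((R : ℝ) ^ 2 * δ) + 1 := Nat.ceil_lt_add_one (by positivity)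
      have h6 : (t : ℝ) / ((R : ℝ) ^ 2 * δ) = (t : ℝ) / (R : ℝ) ^ 2 * (1 / δ) := by field_simp
      rw [h6] at h5
      have hτ : 0 ≤ (t : ℝ) / (R : ℝ) ^ 2 := by positivity
      set τ := (t : ℝ) / (R : ℝ) ^ 2 with hτdef
      have hd : 0 < 1 / (δ : ℝ) := by positivity
      have hl : 0 < 1 / L := by positivity
      have h7 : (n : ℝ) * Real.log 4 ≤ (τ * (1 / δ) + 1) * Real.log 4 :=
        mul_le_mul_of_nonneg_right h5.le hlog.le
      have h8 : (τ * (1 / (δ : ℝ)) + 1) * Real.log 4 ≤ Real.log 4 * (1 + 1 / δ) * (1 + τ) := by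
        have : 0 ≤ Real.log 4 * (1 / (δ : ℝ) + τ) := by positivity
        nlinarith
      have h9 : 0 ≤ (1 + 1 / L) * (1 + τ) := by positivity
      have h10 : (Real.log 4 * (1 + 1 / (δ : ℝ)) + (1 + 1 / L)) * (1 + τ) =
        Real.log 4 * (1 + 1 / δ) * (1 + τ) + (1 + 1 / L) * (1 + τ) := by ring
      linarith
    · refine (hup Ω P X h t R hR').trans ?_
      apply ENNReal.ofReal_le_ofReal
      apply Real.exp_le_exp.mpr
      have h5 : (t : ℝ) / (R : ℝ) ^ 2 < ⌊(t : ℝ) / (R : ℝ) ^ 2⌋₊ + 1 := Nat.lt_floor_add_one _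
      have hτ : 0 ≤ (t : ℝ) / (R : ℝ) ^ 2 := by positivity
      set C : ℝ := Real.log 4 * (1 + 1 / δ) + (1 + 1 / L) with hC
      have hC1 : 1 + 1 / L ≤ C := by
        rw [hC]
        have : 0 ≤ Real.log 4 * (1 + 1 / (δ : ℝ)) := by positivity
        linarith
      have hCpos : 0 < C := lt_of_lt_of_le (by positivity) hC1
      have h6 : (t : ℝ) / (C * (R : ℝ) ^ 2) = (t : ℝ) / (R : ℝ) ^ 2 * (1 / C) := by field_simp
      rw [h6]
      set τ := (t : ℝ) / (R : ℝ) ^ 2 with hτdef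
      set n : ℝ := (⌊τ⌋₊ : ℝ) with hn
      have hn0 : 0 ≤ n := Nat.cast_nonneg _
      have hCL : 1 / C ≤ L := by
        rw [div_le_iff₀ hCpos]
        have : 1 / L ≤ C := by linarith
        rw [div_le_iff₀ hL] at this
        linarith
      have hC1' : 1 / C ≤ 1 := by
        rw [div_le_iff₀ hCpos]
        have : 0 < 1 / L := by positivity
        linarith
      have hCi : 0 < 1 / C := by positivity
      have h7 : τ * (1 / C) ≤ (n + 1) * (1 / C) := mul_le_mul_of_nonneg_right h5.le hCi.le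
      have h8 : n * (1 / C) ≤ n * L := mul_le_mul_of_nonneg_left hCL hn0
      linarith
  · refine ⟨1, one_pos, ?_⟩
    intro Ω _ P _ X h
    exact absurd ⟨Ω, _, P, inferInstance, X, h⟩ hex

end Pool.Agent.H87R3.BT
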